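import Pool.Agent.H29.R2.Targets

/-!
Module MCF: the mean of a class function.
-/

set_option autoImplicit false

open NumberField Complex Filter Topology

namespace Pool.Agent.H4.R2

open Pool.Agent.H29.R2 Pool.Agent.H28.RC Pool.Agent.H25.HK Pool.Agent.H25 Pool.Agent.H29.RT
  Pool.Agent.H29.RS

/-- the general term -/
noncomputable def mcT (w : Nat.Primes → ℂ) (t : ℝ) (s : ℕ) (L : ℝ) (p : Nat.Primes) : ℂ :=
  w p * ((p : ℕ) : ℂ) ^ (-(t * I) : ℂ) *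
    ((((p : ℕ) : ℝ) ^ (-(1 + s / L) : ℝ) - ((p : ℕ) : ℝ) ^ (-(1 + 1 / L) : ℝ) : ℝ) : ℂ)

theorem mc_summable {w : Nat.Primes → ℂ} {C : ℝ} (hw : ∀ p, ‖w p‖ ≤ C) (t : ℝ) {s : ℕ}
    (hs : 1 ≤ s) {L : ℝ} (hL : 0 < L) : Summable (mcT w t s L) := by
  have hs' : (0 : ℝ) < s := by exact_mod_cast hs
  have e1 : Summable fun n : ℕ => (n : ℝ) ^ (-(1 + s / L) : ℝ) := by
    apply Real.summable_nat_rpow.2
    have : 0 < (s : ℝ) / L := div_pos hs' hL
    linarith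
  have e2 : Summable fun n : ℕ => (n : ℝ) ^ (-(1 + 1 / L) : ℝ) := by
    apply Real.summable_nat_rpow.2
    have : 0 < 1 / L := one_div_pos.2 hL
    linarith
  have h1 : Summable (fun p : Nat.Primes => C * (((p : ℕ) : ℝ) ^ (-(1 + s / L) : ℝ) +
      ((p : ℕ) : ℝ) ^ (-(1 + 1 / L) : ℝ))) :=
    ((e1.subtype {n | n.Prime}).add (e2.subtype {n | n.Prime})).mul_left C
  refine Summable.of_norm_bounded h1 (fun p => ?_)
  unfold mcT
  rw [norm_mul, norm_mul]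
  have h2 : ‖((p : ℕ) : ℂ) ^ (-(t * I) : ℂ)‖ = 1 := by
    rw [Complex.norm_natCast_cpow_of_pos p.2.pos]
    simp
  have h3 : (0 : ℝ) ≤ ((p : ℕ) : ℝ) ^ (-(1 + s / L) : ℝ) := by positivity
  have h4 : (0 : ℝ) ≤ ((p : ℕ) : ℝ) ^ (-(1 + 1 / L) : ℝ) := by positivity
  have h5 : ‖((((p : ℕ) : ℝ) ^ (-(1 + s / L) : ℝ) -
      ((p : ℕ) : ℝ) ^ (-(1 + 1 / L) : ℝ) : ℝ) : ℂ)‖ ≤
      ((p : ℕ) : ℝ) ^ (-(1 + s / L) : ℝ) + ((p : ℕ) : ℝ) ^ (-(1 + 1 / L) : ℝ) := by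
    rw [Complex.norm_real, Real.norm_eq_abs]
    exact (abs_sub _ _).trans (by rw [abs_of_nonneg h3, abs_of_nonneg h4])
  rw [h2, mul_one]
  exact mul_le_mul (hw p) h5 (norm_nonneg _) ((norm_nonneg _).trans (hw p))

/-- the contribution of finitely many primes tends to zero -/
theorem mc_finite {r : Nat.Primes → ℂ} (B : Finset ℕ) (hr : ∀ p : Nat.Primes, (p : ℕ) ∉ B → r p = 0)
    (t : ℝ) (s : ℕ) : Tendsto (fun L : ℝ => ∑' p, mcT r t s L p) atTop (𝓝 0) := by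
  classical
  obtain ⟨S, hS⟩ : ∃ S : Finset Nat.Primes, ∀ p : Nat.Primes, (p : ℕ) ∈ B → p ∈ S := by
    have hf : Set.Finite {p : Nat.Primes | (p : ℕ) ∈ B} :=
      (B.finite_toSet).preimage (Subtype.coe_injective.injOn)
    exact ⟨hf.toFinset, fun p hp => hf.mem_toFinset.2 hp⟩
  have h1 : ∀ L : ℝ, ∑' p, mcT r t s L p = ∑ p ∈ S, mcT r t s L p := by
    intro L
    refine tsum_eq_sum (fun p hp => ?_)
    unfold mcT
    rw [hr p (fun h => hp (hS p h)), zero_mul, zero_mul]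
  have h2 : ∀ p : Nat.Primes, Tendsto (fun L : ℝ => mcT r t s L p) atTop (𝓝 0) := by
    intro p
    have hp0 : (0 : ℝ) < ((p : ℕ) : ℝ) := by exact_mod_cast p.2.pos
    have h3 : ∀ c : ℝ, Tendsto (fun L : ℝ => ((p : ℕ) : ℝ) ^ (-(1 + c / L) : ℝ)) atTop
        (𝓝 (((p : ℕ) : ℝ) ^ (-(1 + 0) : ℝ))) := by
      intro c
      have h4 : Tendsto (fun L : ℝ => -(1 + c / L)) atTop (𝓝 (-(1 + 0))) :=
        (tendsto_const_nhds.add (tendsto_const_nhds.div_atTop tendsto_id)).neg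
      exact (Real.continuousAt_const_rpow hp0.ne').tendsto.comp h4
    have h5 := ((h3 s).sub (h3 1))
    rw [sub_self] at h5
    have h6 : Tendsto (fun L : ℝ => ((((p : ℕ) : ℝ) ^ (-(1 + s / L) : ℝ) -
        ((p : ℕ) : ℝ) ^ (-(1 + 1 / L) : ℝ) : ℝ) : ℂ)) atTop (𝓝 ((0 : ℝ) : ℂ)) :=
      (Complex.continuous_ofReal.tendsto 0).comp h5
    have h7 := h6.const_mul (r p * ((p : ℕ) : ℂ) ^ (-(t * I) : ℂ))
    rw [Complex.ofReal_zero, mul_zero] at h7
    exact h7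
  simp only [h1]
  have h8 := tendsto_finsetSum S (fun p _ => h2 p)
  rw [Finset.sum_const_zero] at h8
  exact h8

theorem pf_MCF (h1 : T_AIX) (h2 : T_MIN) : T_MCF := by
  classical
  intro R φ w C B hφ hw hB t s hs
  have hfin : Finite (R.K ≃ₐ[ℚ] R.K) := inferInstance
  obtain ⟨N, H, lam, b, hb1, hb2⟩ := h1 (R.K ≃ₐ[ℚ] R.K) φ hφ
  have hbd : ∀ i, ∃ c : ℝ, ∀ p : Nat.Primes, ‖indc (H i) (lam i) (R.Fr p)‖ ≤ c := by
    intro i
    have hf : (Set.range (fun g => ‖indc (H i) (lam i) g‖)).Finite := Set.finite_range _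
    obtain ⟨c, hc⟩ := hf.bddAbove
    exact ⟨c, fun p => hc ⟨R.Fr p, rfl⟩⟩
  choose c hc using hbd
  obtain ⟨wi, hwi⟩ : ∃ wi : Fin N → Nat.Primes → ℂ, ∀ i p,
      wi i p = indc (H i) (lam i) (R.Fr p) := ⟨_, fun i p => rfl⟩
  have hwc : ∀ i p, ‖wi i p‖ ≤ c i := by
    intro i p
    rw [hwi]
    exact hc i p
  obtain ⟨r, hr⟩ : ∃ r : Nat.Primes → ℂ, ∀ p, r p = w p - ∑ i, b i * wi i p :=
    ⟨_, fun p => rfl⟩
  have hr0 : ∀ p : Nat.Primes, (p : ℕ) ∉ B → r p = 0 := by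
    intro p hp
    rw [hr, hB p hp, hb1, sub_eq_zero]
    exact Finset.sum_congr rfl (fun i _ => by rw [hwi])
  have hrc : ∀ p, ‖r p‖ ≤ C + ∑ i, ‖b i‖ * c i := by
    intro p
    rw [hr]
    refine (norm_sub_le _ _).trans (add_le_add (hw p) ?_)
    refine (norm_sum_le _ _).trans (Finset.sum_le_sum (fun i _ => ?_))
    rw [norm_mul]
    exact mul_le_mul_of_nonneg_left (hwc i p) (norm_nonneg _)
  -- decomposition of the series
  have hdec : ∀ᶠ L : ℝ in atTop, ∑ i, b i * ∑' p, mcT (wi i) t s L p + ∑' p, mcT r t s L p =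
      ∑' p, mcT w t s L p := by
    filter_upwards [eventually_gt_atTop 0] with L hL
    have e1 : ∀ i, Summable (mcT (wi i) t s L) := fun i => mc_summable (hwc i) t hs hL
    have e2 : Summable (mcT r t s L) := mc_summable hrc t hs hL
    have e3 : ∑ i, b i * ∑' p, mcT (wi i) t s L p = ∑' p, ∑ i, b i * mcT (wi i) t s L p := by
      rw [Summable.tsum_finsetSum (fun i _ => (e1 i).mul_left (b i))]
      exact Finset.sum_congr rfl (fun i _ => tsum_mul_left.symm)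
    have e4 : Summable (fun p => ∑ i, b i * mcT (wi i) t s L p) :=
      summable_sum (fun i _ => (e1 i).mul_left (b i))
    rw [e3, ← e4.tsum_add e2]
    refine tsum_congr (fun p => ?_)
    unfold mcT
    rw [hr, sub_mul, sub_mul, Finset.sum_mul, Finset.sum_mul]
    rw [Finset.sum_congr rfl (fun i _ => (by ring :
      b i * wi i p * ((p : ℕ) : ℂ) ^ (-(t * I) : ℂ) *
        ((((p : ℕ) : ℝ) ^ (-(1 + s / L) : ℝ) - ((p : ℕ) : ℝ) ^ (-(1 + 1 / L) : ℝ) : ℝ) : ℂ) =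
      b i * (wi i p * ((p : ℕ) : ℂ) ^ (-(t * I) : ℂ) *
        ((((p : ℕ) : ℝ) ^ (-(1 + s / L) : ℝ) - ((p : ℕ) : ℝ) ^ (-(1 + 1 / L) : ℝ) : ℝ) : ℂ))))]
    ring
  have hlim : ∀ i, Tendsto (fun L : ℝ => ∑' p, mcT (wi i) t s L p) atTop
      (𝓝 (if lam i = 1 ∧ t = 0 then -(Real.log s : ℂ) else 0)) := fun i =>
    h2 R (H i) (lam i) (wi i) (c i) ∅ (hwc i) (fun p _ => hwi i p) t s hs
  have h3 := (tendsto_finsetSum Finset.univ (fun i _ => (hlim i).const_mul (b i))).add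
    (mc_finite B hr0 t s)
  have h4 := h3.congr' hdec
  have h5 : ∑ i, b i * (if lam i = 1 ∧ t = 0 then -(Real.log s : ℂ) else 0) + 0 =
      if t = 0 then -((∑ᶠ g, φ g) / Nat.card (R.K ≃ₐ[ℚ] R.K) * (Real.log s : ℂ)) else 0 := by
    rw [← hb2, add_zero]
    by_cases ht : t = 0
    · rw [if_pos ht, ← neg_mul, ← Finset.sum_neg_distrib, Finset.sum_mul]
      refine Finset.sum_congr rfl (fun i _ => ?_)
      by_cases hl : lam i = 1
      · rw [if_pos ⟨hl, ht⟩, if_pos hl]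
        ring
      · rw [if_neg (fun h => hl h.1), if_neg hl]
        ring
    · rw [if_neg ht]
      refine Finset.sum_eq_zero (fun i _ => ?_)
      rw [if_neg (fun h => ht h.2), mul_zero]
  rw [h5] at h4
  exact h4

end Pool.Agent.H4.R2
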